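import Pool.Agent.helper62.QU.CA1

/-!
# Project qu, row FRB: the frame derivatives of `conv κ g` are bounded

The derivatives at `i` are pointwise limits of bounded functionals on the space of bounded continuous
functions, so they are bounded (Banach-Steinhaus); the derivatives at other points are
derivatives at `i` of a translated function.
-/

open scoped MatrixGroups ContDiff Topology UpperHalfPlane BoundedContinuousFunction
open UpperHalfPlane MeasureTheory Filter Set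

namespace Pool.Agent.QU

/-- evaluation of the convolution as a bounded functional -/
theorem FRB_eval (h6 : CVB_stmt) (κ : ℝ → ℝ) (hκ : RK κ) :
    ∃ L : ℍ → (ℍ →ᵇ ℝ) →L[ℝ] ℝ, ∀ z (h : ℍ →ᵇ ℝ), L z h = conv κ h z := by
  obtain ⟨-, hlin, -, -, -, -, hb, -⟩ := h6 ℝ
  obtain ⟨C, hC⟩ := hb κ hκ
  refine ⟨fun z => LinearMap.mkContinuous
    { toFun := fun h : ℍ →ᵇ ℝ => conv κ h z
      map_add' := fun f g => ?_
      map_smul' := fun c f => ?_ } C ?_, fun z h => rfl⟩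
  · have h := hlin κ f g 1 1 z hκ f.continuous g.continuous
    simp only [one_smul] at h
    exact h
  · have h := hlin κ f f c 0 z hκ f.continuous f.continuous
    simp only [zero_smul, add_zero] at h
    exact h
  · intro h
    exact hC h ‖h‖ h.continuous (fun z => h.norm_coe_le_norm z) z

theorem FRB_tend (G : ℂ → ℝ) (z v : ℂ) (h : DifferentiableAt ℝ G z) :
    Tendsto (fun n : ℕ => ((n : ℝ) + 1) • (G (z + ((n : ℝ) + 1)⁻¹ • v) - G z)) atTop
      (𝓝 (fderiv ℝ G z v)) :=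
  (h.hasFDerivAt.lim_real v).comp
    (tendsto_atTop_add_const_right _ 1 tendsto_natCast_atTop_atTop)

theorem FRB_limit (T : ℕ → (ℍ →ᵇ ℝ) →L[ℝ] ℝ) (f : (ℍ →ᵇ ℝ) → ℝ)
    (h : ∀ x, Tendsto (fun n => T n x) atTop (𝓝 (f x))) :
    ∃ S : (ℍ →ᵇ ℝ) →L[ℝ] ℝ, ∀ x, S x = f x :=
  ⟨continuousLinearMapOfTendsto T (tendsto_pi_nhds.2 h), fun _ => rfl⟩

theorem FRB_cd (h5 : CVS_stmt) (κ : ℝ → ℝ) (hκ : RK κ) (f : ℍ → ℝ) (hf : Continuous f) :
    CD 2 (conv κ f) := (h5 ℝ κ f hκ hf).1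

theorem FRB_cd1 {φ : ℍ → ℝ} (h : CD 2 φ) : CD 1 φ := h.of_le (by norm_num)

theorem FRB_one (h5 : CVS_stmt) (h6 : CVB_stmt) (κ : ℝ → ℝ) (hκ : RK κ) (v : ℂ) (z : ℍ) :
    ∃ S : (ℍ →ᵇ ℝ) →L[ℝ] ℝ, ∀ h : ℍ →ᵇ ℝ, S h = fderiv ℝ (onC (conv κ h)) (z : ℂ) v := by
  obtain ⟨L, hL⟩ := FRB_eval h6 κ hκ
  refine FRB_limit (fun n => ((n : ℝ) + 1) • (L (ofComplex ((z : ℂ) + ((n : ℝ) + 1)⁻¹ • v)) - L z))
    _ (fun h => ?_)
  have h1 := FRB_tend (onC (conv κ h)) z v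
    (CA1_diff (FRB_cd1 (FRB_cd h5 κ hκ h h.continuous)) z)
  refine h1.congr (fun n => ?_)
  rw [CA1_val]
  show _ = ((n : ℝ) + 1) • (L (ofComplex ((z : ℂ) + ((n : ℝ) + 1)⁻¹ • v)) h - L z h)
  rw [hL, hL]
  rfl

theorem FRB_diff2 {φ : ℍ → ℝ} (h : CD 2 φ) (z : ℍ) :
    DifferentiableAt ℝ (fderiv ℝ (onC φ)) (z : ℂ) := by
  have h1 : ContDiffOn ℝ 1 (fderiv ℝ (onC φ)) CA1_U := by
    have h2 : ContDiffOn ℝ ((1 : ℕ) + 1) (onC φ) CA1_U := by
      have : (((1 : ℕ) : WithTop ℕ∞) + 1) = 2 := by norm_num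
      rw [this]
      exact h
    exact ((contDiffOn_succ_iff_fderiv_of_isOpen CA1_open).1 h2).2.2
  exact (h1.contDiffAt (CA1_open.mem_nhds (CA1_mem z))).differentiableAt (by norm_num)

theorem FRB_two (h5 : CVS_stmt) (h6 : CVB_stmt) (κ : ℝ → ℝ) (hκ : RK κ) (v v' : ℂ) (z : ℍ) :
    ∃ S : (ℍ →ᵇ ℝ) →L[ℝ] ℝ, ∀ h : ℍ →ᵇ ℝ,
      S h = fderiv ℝ (fderiv ℝ (onC (conv κ h))) (z : ℂ) v v' := by
  choose D hD using FRB_one h5 h6 κ hκ v'
  refine FRB_limit (fun n => ((n : ℝ) + 1) • (D (ofComplex ((z : ℂ) + ((n : ℝ) + 1)⁻¹ • v)) - D z))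
    _ (fun h => ?_)
  have h0 := FRB_diff2 (FRB_cd h5 κ hκ h h.continuous) z
  have h0' : DifferentiableAt ℝ (fun w => fderiv ℝ (onC (conv κ h)) w v') (z : ℂ) :=
    h0.clm_apply (differentiableAt_const v')
  have h1 := FRB_tend (fun w => fderiv ℝ (onC (conv κ h)) w v') z v h0'
  have h2 : fderiv ℝ (fun w => fderiv ℝ (onC (conv κ h)) w v') (z : ℂ) v =
      fderiv ℝ (fderiv ℝ (onC (conv κ h))) (z : ℂ) v v' := by
    rw [fderiv_clm_apply h0 (differentiableAt_const v')]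
    simp
  rw [h2] at h1
  refine h1.congr' ?_
  have h3 : Tendsto (fun n : ℕ => (z : ℂ) + ((n : ℝ) + 1)⁻¹ • v) atTop (𝓝 ((z : ℂ) + (0 : ℝ) • v)) := by
    apply Tendsto.const_add
    apply Tendsto.smul_const
    exact tendsto_inv_atTop_zero.comp
      (tendsto_atTop_add_const_right _ 1 tendsto_natCast_atTop_atTop)
  rw [zero_smul, add_zero] at h3
  filter_upwards [h3.eventually (CA1_open.mem_nhds (CA1_mem z))] with n hn
  show _ = ((n : ℝ) + 1) • (D (ofComplex ((z : ℂ) + ((n : ℝ) + 1)⁻¹ • v)) h - D z h)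
  rw [hD, hD, CA1_coe hn]

/-- the frame fields -/
noncomputable def FRB_dV (a : ℂ) (φ : ℍ → ℝ) (z : ℍ) : ℝ := z.im • fderiv ℝ (onC φ) (z : ℂ) a

theorem FRB_dVon (a : ℂ) (φ : ℍ → ℝ) {w : ℂ} (hw : w ∈ CA1_U) :
    onC (FRB_dV a φ) w = w.im • fderiv ℝ (onC φ) w a := by
  unfold onC FRB_dV
  rw [CA1_im hw, CA1_coe hw]
  rfl

theorem FRB_dd (a b : ℂ) (φ : ℍ → ℝ) (h : CD 2 φ) (z : ℍ) :
    FRB_dV b (FRB_dV a φ) z = z.im * (b.im * fderiv ℝ (onC φ) (z : ℂ) a +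
      z.im * fderiv ℝ (fderiv ℝ (onC φ)) (z : ℂ) b a) := by
  have h1 : onC (FRB_dV a φ) =ᶠ[𝓝 (z : ℂ)] fun w => w.im • fderiv ℝ (onC φ) w a := by
    filter_upwards [CA1_open.mem_nhds (CA1_mem z)] with w hw
    exact FRB_dVon a φ hw
  have h0 := FRB_diff2 h z
  have h0' : DifferentiableAt ℝ (fun w => fderiv ℝ (onC φ) w a) (z : ℂ) :=
    h0.clm_apply (differentiableAt_const a)
  have him : DifferentiableAt ℝ (fun w : ℂ => w.im) (z : ℂ) :=
    Complex.imCLM.differentiableAt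
  have himd : fderiv ℝ (fun w : ℂ => w.im) (z : ℂ) b = b.im := by
    have : fderiv ℝ (fun w : ℂ => w.im) (z : ℂ) = Complex.imCLM := Complex.imCLM.fderiv
    rw [this]
    rfl
  have h2 : fderiv ℝ (fun w => fderiv ℝ (onC φ) w a) (z : ℂ) b =
      fderiv ℝ (fderiv ℝ (onC φ)) (z : ℂ) b a := by
    rw [fderiv_clm_apply h0 (differentiableAt_const a)]
    simp
  show z.im • fderiv ℝ (onC (FRB_dV a φ)) (z : ℂ) b = _
  rw [h1.fderiv_eq, fderiv_fun_smul him h0']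
  simp only [_root_.add_apply, _root_.smul_apply, ContinuousLinearMap.smulRight_apply, smul_eq_mul,
    himd, h2]
  have : ((z : ℂ)).im = z.im := rfl
  rw [this]
  ring

/-- the affine map `p z = z₀.re + z₀.im * z` -/
theorem FRB_aff (z₀ : ℍ) : ∃ p : SL(2, ℝ), ∀ z : ℍ, ((p • z : ℍ) : ℂ) = z₀.re + z₀.im * (z : ℂ) := by
  set s : ℝ := Real.sqrt z₀.im with hs
  have hs0 : 0 < s := Real.sqrt_pos.2 z₀.im_pos
  have hs2 : s * s = z₀.im := Real.mul_self_sqrt z₀.im_pos.le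
  refine ⟨⟨!![s, z₀.re / s; 0, s⁻¹], ?_⟩, fun z => ?_⟩
  · rw [Matrix.det_fin_two_of]
    field_simp
    ring
  · rw [UpperHalfPlane.coe_specialLinearGroup_apply]
    simp
    have hsC : (s : ℂ) * (s : ℂ) = (z₀.im : ℂ) := by exact_mod_cast hs2
    have hsne : (s : ℂ) ≠ 0 := by exact_mod_cast hs0.ne'
    rw [add_mul, div_mul_cancel₀ _ hsne, ← hsC]
    ring

theorem FRB_inv (a : ℂ) (φ : ℍ → ℝ) (z₀ : ℍ) (p : SL(2, ℝ))
    (hp : ∀ z : ℍ, ((p • z : ℍ) : ℂ) = z₀.re + z₀.im * (z : ℂ)) (z : ℍ)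
    (h : DifferentiableAt ℝ (onC φ) ((p • z : ℍ) : ℂ)) :
    FRB_dV a (fun z => φ (p • z)) z = FRB_dV a φ (p • z) := by
  have h1 : onC (fun z => φ (p • z)) =ᶠ[𝓝 (z : ℂ)]
      (onC φ) ∘ (fun w : ℂ => (z₀.re : ℂ) + (z₀.im : ℂ) * w) := by
    filter_upwards [CA1_open.mem_nhds (CA1_mem z)] with w hw
    show φ (p • ofComplex w) = φ (ofComplex ((z₀.re : ℂ) + (z₀.im : ℂ) * w))
    have h2 := hp (ofComplex w)
    rw [CA1_coe hw] at h2
    rw [← h2, ofComplex_apply]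
  have hA : HasFDerivAt (fun w : ℂ => (z₀.re : ℂ) + (z₀.im : ℂ) * w)
      ((z₀.im : ℝ) • (ContinuousLinearMap.id ℝ ℂ)) (z : ℂ) := by
    have h3 : HasFDerivAt (fun w : ℂ => (z₀.im : ℝ) • w)
        ((z₀.im : ℝ) • (ContinuousLinearMap.id ℝ ℂ)) (z : ℂ) :=
      (hasFDerivAt_id (z : ℂ)).const_smul (z₀.im : ℝ)
    have h4 := h3.const_add (z₀.re : ℂ)
    have h5 : (fun w : ℂ => (z₀.re : ℂ) + (z₀.im : ℂ) * w) =
        fun w : ℂ => (z₀.re : ℂ) + (z₀.im : ℝ) • w := by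
      funext w
      rw [Complex.real_smul]
    rw [h5]
    exact h4
  have hB : HasFDerivAt (onC φ) (fderiv ℝ (onC φ) ((p • z : ℍ) : ℂ))
      ((fun w : ℂ => (z₀.re : ℂ) + (z₀.im : ℂ) * w) (z : ℂ)) := by
    show HasFDerivAt (onC φ) (fderiv ℝ (onC φ) ((p • z : ℍ) : ℂ)) ((z₀.re : ℂ) + (z₀.im : ℂ) * z)
    rw [← hp z]
    exact h.hasFDerivAt
  have hC := hB.comp (z : ℂ) hA
  have him : (p • z : ℍ).im = z₀.im * z.im := by
    have h6 := congrArg Complex.im (hp z)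
    simpa using h6
  show z.im • fderiv ℝ (onC fun z => φ (p • z)) (z : ℂ) a =
    (p • z : ℍ).im • fderiv ℝ (onC φ) ((p • z : ℍ) : ℂ) a
  rw [h1.fderiv_eq, hC.fderiv, him]
  simp only [ContinuousLinearMap.comp_apply, _root_.smul_apply, ContinuousLinearMap.id_apply,
    map_smul, smul_eq_mul]
  ring

theorem FRB (_h1 : TTT_stmt) (_h2 : CA1_stmt) (_h3 : CA2_stmt) (_h4 : LAK_stmt) (h5 : CVS_stmt)
    (h6 : CVB_stmt) : FRB_stmt := by
  intro κ hκ
  obtain ⟨hinv, -, -, -, -, -, hb, -⟩ := h6 ℝ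
  obtain ⟨C0, hC0⟩ := hb κ hκ
  choose S hS using fun v => FRB_one h5 h6 κ hκ v UpperHalfPlane.I
  choose S2 hS2 using fun v v' => FRB_two h5 h6 κ hκ v v' UpperHalfPlane.I
  -- all derivatives at `z` in terms of those at `i`
  have key : ∀ (g : ℍ → ℝ) (m : ℝ), Continuous g → (∀ z, |g z| ≤ m) → ∀ (z : ℍ) (a b : ℂ),
      |FRB_dV a (conv κ g) z| ≤ ‖S a‖ * m ∧
      |FRB_dV b (FRB_dV a (conv κ g)) z| ≤ (|b.im| * ‖S a‖ + ‖S2 b a‖) * m := by
    intro g m hg hm z a b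
    have hm0 : 0 ≤ m := (abs_nonneg _).trans (hm z)
    obtain ⟨p, hp⟩ := FRB_aff z
    have hpI : p • UpperHalfPlane.I = z := by
      apply UpperHalfPlane.ext
      rw [hp]
      have : ((UpperHalfPlane.I : ℍ) : ℂ) = Complex.I := rfl
      rw [this]
      apply Complex.ext <;> simp
    set g' : ℍ → ℝ := fun w => g (p • w) with hg'
    have hgc : Continuous g' := hg.comp (continuous_const_smul p)
    set gb : ℍ →ᵇ ℝ := BoundedContinuousFunction.ofNormedAddCommGroup g' hgc m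
      (fun w => hm (p • w)) with hgb
    have hgbn : ‖gb‖ ≤ m := BoundedContinuousFunction.norm_ofNormedAddCommGroup_le _ hm0 _
    have hgg : (fun w : ℍ => conv κ g (p • w)) = conv κ gb := by
      funext w
      exact (hinv κ g p w).symm
    have hcd := FRB_cd h5 κ hκ g hg
    have hcd' := FRB_cd h5 κ hκ gb gb.continuous
    have hd1 : ∀ w : ℍ, FRB_dV a (conv κ g) (p • w) = FRB_dV a (conv κ gb) w := by
      intro w
      rw [← FRB_inv a (conv κ g) z p hp w (CA1_diff (FRB_cd1 hcd) _), hgg]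
    have hIim : (UpperHalfPlane.I : ℍ).im = 1 := rfl
    constructor
    · have e1 : FRB_dV a (conv κ g) z = S a gb := by
        rw [← hpI, hd1, hS]
        unfold FRB_dV
        rw [hIim, one_smul]
      rw [e1]
      exact ((S a).le_opNorm gb).trans (mul_le_mul_of_nonneg_left hgbn (norm_nonneg _))
    · have hcdV : CD 1 (FRB_dV a (conv κ g)) := by
        have h7 : ContDiffOn ℝ (1 : ℕ) (fun w : ℂ => w.im • fderiv ℝ (onC (conv κ g)) w a) CA1_U :=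
          CA1_deriv (conv κ g) 1 a (by
            have : (((1 : ℕ) : WithTop ℕ∞) + 1) = 2 := by norm_num
            rw [this]
            exact hcd)
        exact h7.congr (fun w hw => FRB_dVon a _ hw)
      have e2 : FRB_dV b (FRB_dV a (conv κ g)) z = b.im * S a gb + S2 b a gb := by
        rw [← hpI, ← FRB_inv b (FRB_dV a (conv κ g)) z p hp UpperHalfPlane.I (CA1_diff hcdV _)]
        have h8 : (fun w : ℍ => FRB_dV a (conv κ g) (p • w)) = FRB_dV a (conv κ gb) := funext hd1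
        rw [h8, FRB_dd a b (conv κ gb) hcd', hIim, hS, hS2]
        ring
      rw [e2]
      have h9 : |S a gb| ≤ ‖S a‖ * m :=
        ((S a).le_opNorm gb).trans (mul_le_mul_of_nonneg_left hgbn (norm_nonneg _))
      have h10 : |S2 b a gb| ≤ ‖S2 b a‖ * m :=
        ((S2 b a).le_opNorm gb).trans (mul_le_mul_of_nonneg_left hgbn (norm_nonneg _))
      calc |b.im * S a gb + S2 b a gb| ≤ |b.im * S a gb| + |S2 b a gb| := abs_add_le _ _
        _ = |b.im| * |S a gb| + |S2 b a gb| := by rw [abs_mul]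
        _ ≤ |b.im| * (‖S a‖ * m) + ‖S2 b a‖ * m :=
            add_le_add (mul_le_mul_of_nonneg_left h9 (abs_nonneg _)) h10
        _ = (|b.im| * ‖S a‖ + ‖S2 b a‖) * m := by ring
  set D : ℝ := |C0| + 2 * (‖S 1‖ + ‖S Complex.I‖) + (‖S2 1 1‖ + ‖S2 1 Complex.I‖ +
    ‖S2 Complex.I 1‖ + ‖S2 Complex.I Complex.I‖) with hD
  have n1 := norm_nonneg (S 1)
  have n2 := norm_nonneg (S Complex.I)
  have n3 := norm_nonneg (S2 1 1)
  have n4 := norm_nonneg (S2 1 Complex.I)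
  have n5 := norm_nonneg (S2 Complex.I 1)
  have n6 := norm_nonneg (S2 Complex.I Complex.I)
  have n7 := abs_nonneg C0
  have n8 := le_abs_self C0
  refine ⟨D, by positivity, fun g m hg hm => ⟨FRB_cd h5 κ hκ g hg, fun z => ?_⟩⟩
  have hm0 : 0 ≤ m := (abs_nonneg _).trans (hm z)
  have im1 : (1 : ℂ).im = 0 := rfl
  have imI : Complex.I.im = 1 := rfl
  have k11 := key g m hg hm z 1 1
  have k1I := key g m hg hm z 1 Complex.I
  have kI1 := key g m hg hm z Complex.I 1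
  have kII := key g m hg hm z Complex.I Complex.I
  rw [im1, abs_zero, zero_mul, zero_add] at k11 kI1
  rw [imI, abs_one, one_mul] at k1I kII
  refine ⟨?_, k11.1.trans ?_, kI1.1.trans ?_, k11.2.trans ?_, kI1.2.trans ?_, k1I.2.trans ?_,
    kII.2.trans ?_⟩
  · have := hC0 g m hg hm z
    rw [Real.norm_eq_abs] at this
    refine this.trans (mul_le_mul_of_nonneg_right ?_ hm0)
    rw [hD]
    linarith
  all_goals
    refine mul_le_mul_of_nonneg_right ?_ hm0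
    rw [hD]
    linarith

end Pool.Agent.QU
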